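import Pool.Agent.H8.ISH.T1

/-! Project ISH, module CLB: the lower bound for the canonical partition function. -/

set_option autoImplicit false
set_option linter.unusedVariables false

namespace Pool.ISH

open MeasureTheory Filter Topology
open scoped Classical Pointwise

theorem h8_cube_box (N : ℕ) : cube (fun _ => -(N : ℤ)) (2 * N + 1) = Vb N := by
  ext x
  rw [mem_cube, mem_Vb]
  constructor
  · intro h i
    have := h i
    rw [abs_le]
    push_cast at this
    constructor <;> linarith [this.1, this.2]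
  · intro h i
    have := abs_le.1 (h i)
    push_cast
    constructor <;> linarith [this.1, this.2]

theorem h8_seg_sub (z : Site) (a k : ℕ) : seg z a k ⊆ cube z a := Finset.filter_subset _ _

theorem h8_ZZ_union (β : ℝ) (N : ℕ) (S T : Finset (Finset Site)) :
    ZZ β N (S ∪ T) ≤ ZZ β N S + ZZ β N T := by
  unfold ZZ
  rw [← Finset.sum_union_inter]
  have : 0 ≤ ∑ A ∈ S ∩ T, wt β N A := Finset.sum_nonneg fun A _ => (wt_pos β N A).le
  linarith

theorem h8_ZZ_biUnion {ι : Type} (β : ℝ) (N : ℕ) (s : Finset ι)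
    (D : ι → Finset (Finset Site)) :
    ZZ β N (s.biUnion D) ≤ ∑ i ∈ s, ZZ β N (D i) := by
  classical
  induction s using Finset.induction_on with
  | empty => simp [ZZ]
  | insert a s ha ih =>
    rw [Finset.biUnion_insert, Finset.sum_insert ha]
    exact (h8_ZZ_union β N _ _).trans (add_le_add le_rfl ih)

/-- Markov inequality for weights -/
theorem h8_markov (β : ℝ) (N : ℕ) (f : Finset Site → ℝ) (t K : ℝ)
    (h : ∑ A ∈ (Vb N).powerset, wt β N A * Real.exp (f A) ≤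
      Real.exp K * ZZ β N (Vb N).powerset) (hK : K + 2 ≤ t) :
    ZZ β N ((Vb N).powerset.filter (fun A => t < f A)) ≤ 1 / 4 * ZZ β N (Vb N).powerset := by
  have h1 : Real.exp t * ZZ β N ((Vb N).powerset.filter (fun A => t < f A)) ≤
      ∑ A ∈ (Vb N).powerset, wt β N A * Real.exp (f A) := by
    unfold ZZ
    rw [Finset.mul_sum]
    refine (Finset.sum_le_sum (f := fun A => Real.exp t * wt β N A)
      (g := fun A => wt β N A * Real.exp (f A)) ?_).trans
      (Finset.sum_le_sum_of_subset_of_nonneg (Finset.filter_subset _ _) ?_)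
    · intro A hA
      rw [Finset.mem_filter] at hA
      show Real.exp t * wt β N A ≤ wt β N A * Real.exp (f A)
      rw [mul_comm]
      exact mul_le_mul_of_nonneg_left (Real.exp_le_exp.2 hA.2.le) (wt_pos β N A).le
    · intro A _ _
      exact mul_nonneg (wt_pos β N A).le (Real.exp_pos _).le
  have h2 : Real.exp t * ZZ β N ((Vb N).powerset.filter (fun A => t < f A)) ≤
      Real.exp K * ZZ β N (Vb N).powerset := h1.trans h
  have h3 : Real.exp K * Real.exp 2 ≤ Real.exp t := by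
    rw [← Real.exp_add]
    exact Real.exp_le_exp.2 hK
  have h4 : (4 : ℝ) ≤ Real.exp 2 := by
    have := Real.add_one_le_exp (1 : ℝ)
    have h5 : Real.exp 2 = Real.exp 1 * Real.exp 1 := by
      rw [← Real.exp_add]; norm_num
    rw [h5]
    nlinarith
  set Z := ZZ β N (Vb N).powerset with hZ
  set W := ZZ β N ((Vb N).powerset.filter (fun A => t < f A)) with hW
  have hW0 : 0 ≤ W := h8_ZZ_nonneg _ _ _
  have hK0 := Real.exp_pos K
  have h6 : Real.exp K * (4 * W) ≤ Real.exp K * Z := by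
    calc Real.exp K * (4 * W) ≤ Real.exp K * (Real.exp 2 * W) := by
          apply mul_le_mul_of_nonneg_left _ hK0.le
          exact mul_le_mul_of_nonneg_right h4 hW0
      _ = (Real.exp K * Real.exp 2) * W := by ring
      _ ≤ Real.exp t * W := mul_le_mul_of_nonneg_right h3 hW0
      _ ≤ _ := h2
  have h7 := le_of_mul_le_mul_left h6 hK0
  linarith

/-- the weight after a flip -/
theorem h8_wt_le {β : ℝ} {N : ℕ} {A A' : Finset Site} {D : ℝ} (hβ : 0 ≤ β)
    (h : (en N A' : ℝ) ≤ en N A + D) :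
    wt β N A ≤ Real.exp (2 * β * D) * wt β N A' := by
  unfold wt
  rw [← Real.exp_add]
  apply Real.exp_le_exp.2
  nlinarith

theorem clb (hT1 : TY1Stmt) (hT2 : TY2Stmt) (hM : MAGStmt) (hI : IVTStmt) (hS : SEGStmt) :
    CLBStmt := by
  obtain ⟨C₁, β₁, hC₁, hT1⟩ := hT1
  obtain ⟨C', θ, hC', hθ, N₀, hM⟩ := hM (C₁ + 2) (by linarith)
  obtain ⟨β₂, hT2⟩ := hT2 (θ / 2) (by linarith)
  refine ⟨2 * (C' + 54) + 2 * C' + 31, max (max β₁ β₂) 1, by linarith, fun β hβ => ?_⟩
  have hb1 : β₁ ≤ β := le_trans (le_trans (le_max_left _ _) (le_max_left _ _)) hβ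
  have hb2 : β₂ ≤ β := le_trans (le_trans (le_max_right _ _) (le_max_left _ _)) hβ
  have hb3 : 1 ≤ β := le_trans (le_max_right _ _) hβ
  obtain ⟨N₁, hN₁⟩ := exists_nat_ge (4 / θ)
  refine ⟨max 1 (max N₀ N₁), fun N hN m hm hne => ?_⟩
  have hn1 : 1 ≤ N := le_trans (le_max_left _ _) hN
  have hn2 : N₀ ≤ N := le_trans (le_trans (le_max_left _ _) (le_max_right _ _)) hN
  have hn3 : N₁ ≤ N := le_trans (le_trans (le_max_right _ _) (le_max_right _ _)) hN
  have hNr : (1 : ℝ) ≤ N := by exact_mod_cast hn1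
  obtain ⟨B, hBc, hBF, hBA⟩ := hM N hn2
  set Z := ZZ β N (Vb N).powerset with hZ
  -- the two bad events
  have hbad1 : ZZ β N ((Vb N).powerset.filter
      (fun A => (C₁ + 2) * β * (N : ℝ) ^ 2 < β * lg N A)) ≤ 1 / 4 * Z := by
    refine h8_markov β N (fun A => β * lg N A) _ (C₁ * β * (N : ℝ) ^ 2) (hT1 β hb1 N hn1) ?_
    have h1 : 1 ≤ β * (N : ℝ) ^ 2 := by
      have : (1 : ℝ) ≤ (N : ℝ) ^ 2 := by nlinarith
      nlinarith
    nlinarith
  have hLg : (Lg N : ℝ) ≤ N := by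
    have : Nat.log 2 N < N := Nat.log_lt_self 2 (by omega)
    unfold Lg
    exact_mod_cast this
  have hLg0 : (0 : ℝ) < Lg N := by
    unfold Lg
    positivity
  have hbad2 : ZZ β N ((Vb N).powerset.filter
      (fun A => θ * (N : ℝ) ^ 3 / Lg N < (sm N A : ℝ) / Lg N)) ≤ 1 / 4 * Z := by
    refine h8_markov β N (fun A => (sm N A : ℝ) / Lg N) _ (θ / 2 * (N : ℝ) ^ 3 / Lg N)
      (hT2 β hb2 N hn1) ?_
    have h1 : θ / 2 * (N : ℝ) ^ 2 ≤ θ / 2 * (N : ℝ) ^ 3 / Lg N := by
      rw [le_div_iff₀ hLg0]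
      have : θ / 2 * (N : ℝ) ^ 2 * (Lg N : ℝ) ≤ θ / 2 * (N : ℝ) ^ 2 * N :=
        mul_le_mul_of_nonneg_left hLg (by positivity)
      calc _ ≤ _ := this
        _ = _ := by ring
    have h2 : 2 ≤ θ / 2 * (N : ℝ) ^ 2 := by
      have h3 : 4 / θ ≤ N := hN₁.trans (by exact_mod_cast hn3)
      rw [div_le_iff₀ hθ] at h3
      have h4 : (N : ℝ) ≤ (N : ℝ) ^ 2 := by nlinarith
      nlinarith
    have h3 : θ * (N : ℝ) ^ 3 / Lg N = θ / 2 * (N : ℝ) ^ 3 / Lg N + θ / 2 * (N : ℝ) ^ 3 / Lg N := by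
      ring
    linarith
  -- good configurations
  set G := (Vb N).powerset.filter
    (fun A => (lg N A : ℝ) ≤ (C₁ + 2) * (N : ℝ) ^ 2 ∧ (sm N A : ℝ) ≤ θ * (N : ℝ) ^ 3) with hG
  have hgood : 1 / 2 * Z ≤ ZZ β N G := by
    have hcov : (Vb N).powerset ⊆ G ∪ ((Vb N).powerset.filter
      (fun A => (C₁ + 2) * β * (N : ℝ) ^ 2 < β * lg N A) ∪ (Vb N).powerset.filter
      (fun A => θ * (N : ℝ) ^ 3 / Lg N < (sm N A : ℝ) / Lg N)) := by
      intro A hA
      simp only [Finset.mem_union, Finset.mem_filter, hG, hA, true_and]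
      by_cases h1 : (lg N A : ℝ) ≤ (C₁ + 2) * (N : ℝ) ^ 2
      · by_cases h2 : (sm N A : ℝ) ≤ θ * (N : ℝ) ^ 3
        · exact Or.inl ⟨h1, h2⟩
        · right; right
          push Not at h2
          gcongr
      · right; left
        push Not at h1
        have : β * ((C₁ + 2) * (N : ℝ) ^ 2) < β * lg N A :=
          mul_lt_mul_of_pos_left h1 (by linarith)
        linarith
    have h1 : Z ≤ ZZ β N G + (ZZ β N ((Vb N).powerset.filter
      (fun A => (C₁ + 2) * β * (N : ℝ) ^ 2 < β * lg N A)) + ZZ β N ((Vb N).powerset.filter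
      (fun A => θ * (N : ℝ) ^ 3 / Lg N < (sm N A : ℝ) / Lg N))) := by
      exact (h8_ZZ_mono β N hcov).trans ((h8_ZZ_union β N _ _).trans
        (add_le_add le_rfl (h8_ZZ_union β N _ _)))
    linarith
  -- the number of plus sites of the configurations with magnetisation m
  obtain ⟨A₀, hA₀⟩ := hne
  rw [Cf, Finset.mem_filter, Finset.mem_powerset] at hA₀
  set z : Site := fun _ => -(N : ℤ) with hz
  obtain ⟨hS1, -, hS2, -⟩ := hS z (2 * N + 1)
  -- the map
  have hmap : ∀ A ∈ G, ∃ F ∈ B, ∃ k ∈ Finset.range ((2 * N + 1) ^ 3 + 1),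
      symmDiff (symmDiff A F) (seg z (2 * N + 1) k) ∈ Cf N m := by
    intro A hA
    rw [hG, Finset.mem_filter, Finset.mem_powerset] at hA
    obtain ⟨F, hF, hmg⟩ := hBA A hA.1 hA.2.1 hA.2.2
    refine ⟨F, hF, ?_⟩
    have hFV := (hBF F hF).1
    have hA1 : symmDiff A F ⊆ Vb N := symmDiff_subset_Vb hA.1 hFV
    have hcomp : (symmDiff (symmDiff A F) (cube z (2 * N + 1))).card + (symmDiff A F).card =
        (Vb N).card := by
      rw [hz, h8_cube_box]
      have : symmDiff (symmDiff A F) (Vb N) = Vb N \ symmDiff A F := by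
        ext x
        simp only [Finset.mem_symmDiff, Finset.mem_sdiff]
        have := @hA1 x
        simp only [Finset.mem_symmDiff] at this
        tauto
      rw [this]
      exact Finset.card_sdiff_add_card_eq_card hA1
    have hmA₀ := hA₀.2
    unfold mg at hmg hmA₀
    have hm' := abs_le.1 hm
    obtain ⟨k, hk, hk2⟩ := hI z (2 * N + 1) (symmDiff A F) A₀.card (Or.inr ⟨by omega, by omega⟩)
    refine ⟨k, Finset.mem_range.2 (by omega), ?_⟩
    rw [Cf, Finset.mem_filter, Finset.mem_powerset]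
    constructor
    · refine symmDiff_subset_Vb hA1 ?_
      have := h8_seg_sub z (2 * N + 1) k
      rwa [show cube z (2 * N + 1) = Vb N from h8_cube_box N] at this
    · unfold mg
      rw [hk2]
      exact hmA₀
  have hen : ∀ A ∈ G, ∀ F ∈ B, ∀ k ∈ Finset.range ((2 * N + 1) ^ 3 + 1),
      wt β N A ≤ Real.exp (2 * β * (C' * (N : ℝ) ^ 2 + 54 * (N : ℝ) ^ 2)) *
        wt β N (symmDiff (symmDiff A F) (seg z (2 * N + 1) k)) := by
    intro A hA F hF k hk
    apply h8_wt_le (by linarith)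
    have hFV := (hBF F hF).1
    have hsV : seg z (2 * N + 1) k ⊆ Vb N := by
      have := h8_seg_sub z (2 * N + 1) k
      rwa [show cube z (2 * N + 1) = Vb N from h8_cube_box N] at this
    have h1 := en_flip_le (A := A) hFV
    have h2 := en_flip_le (A := symmDiff A F) hsV
    have h3 := hS1 k
    have h4 := (hBF F hF).2
    have h5 : (en N (symmDiff (symmDiff A F) (seg z (2 * N + 1) k)) : ℝ) ≤
        en N A + ((bd (F : Set Site)).ncard : ℝ) +
          ((bd (seg z (2 * N + 1) k : Set Site)).ncard : ℝ) := by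
      exact_mod_cast h2.trans (Nat.add_le_add_right h1 _)
    have h6 : ((bd (seg z (2 * N + 1) k : Set Site)).ncard : ℝ) ≤ 6 * (2 * (N : ℝ) + 1) ^ 2 := by
      exact_mod_cast h3
    nlinarith
  -- the sum
  have hsum : ZZ β N G ≤ ∑ p ∈ B ×ˢ Finset.range ((2 * N + 1) ^ 3 + 1),
      Real.exp (2 * β * (C' * (N : ℝ) ^ 2 + 54 * (N : ℝ) ^ 2)) * ZZ β N (Cf N m) := by
    set D : Finset Site × ℕ → Finset (Finset Site) := fun p =>
      G.filter (fun A => symmDiff (symmDiff A p.1) (seg z (2 * N + 1) p.2) ∈ Cf N m) with hD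
    have hcov : G ⊆ (B ×ˢ Finset.range ((2 * N + 1) ^ 3 + 1)).biUnion D := by
      intro A hA
      obtain ⟨F, hF, k, hk, h⟩ := hmap A hA
      rw [Finset.mem_biUnion]
      refine ⟨(F, k), Finset.mem_product.2 ⟨hF, hk⟩, ?_⟩
      rw [hD, Finset.mem_filter]
      exact ⟨hA, h⟩
    have h1 : ZZ β N G ≤ ∑ p ∈ B ×ˢ Finset.range ((2 * N + 1) ^ 3 + 1), ZZ β N (D p) := by
      refine (h8_ZZ_mono β N hcov).trans ?_
      exact h8_ZZ_biUnion β N _ D
    refine h1.trans (Finset.sum_le_sum fun p hp => ?_)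
    rw [Finset.mem_product] at hp
    unfold ZZ
    rw [Finset.mul_sum]
    have h2 : ∑ A ∈ D p, wt β N A ≤ ∑ A ∈ D p,
        Real.exp (2 * β * (C' * (N : ℝ) ^ 2 + 54 * (N : ℝ) ^ 2)) *
          wt β N (symmDiff (symmDiff A p.1) (seg z (2 * N + 1) p.2)) := by
      refine Finset.sum_le_sum fun A hA => ?_
      rw [hD, Finset.mem_filter] at hA
      exact hen A hA.1 p.1 hp.1 p.2 hp.2
    refine h2.trans ?_
    have hinj : Set.InjOn (fun A => symmDiff (symmDiff A p.1) (seg z (2 * N + 1) p.2))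
        (D p : Set (Finset Site)) := by
      intro A _ A' _ h
      exact symmDiff_left_injective _ (symmDiff_left_injective _ h)
    have h3 := Finset.sum_image (f := fun A' =>
      Real.exp (2 * β * (C' * (N : ℝ) ^ 2 + 54 * (N : ℝ) ^ 2)) * wt β N A') hinj
    rw [← h3]
    refine Finset.sum_le_sum_of_subset_of_nonneg ?_ ?_
    · intro A' hA'
      rw [Finset.mem_image] at hA'
      obtain ⟨A, hA, rfl⟩ := hA'
      rw [hD, Finset.mem_filter] at hA
      exact hA.2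
    · intro A' _ _
      exact mul_nonneg (Real.exp_pos _).le (wt_pos β N A').le
  rw [Finset.sum_const, nsmul_eq_mul, Finset.card_product, Finset.card_range] at hsum
  set W := ZZ β N (Cf N m) with hW
  have hW0 : 0 ≤ W := h8_ZZ_nonneg _ _ _
  -- elementary estimates
  have e1 : 2 * C' ≤ Real.exp (2 * C' * β * (N : ℝ) ^ 2) := by
    have h1 : 2 * C' ≤ 2 * C' * (β * (N : ℝ) ^ 2) := by
      have : 1 ≤ β * (N : ℝ) ^ 2 := by
        have : (1 : ℝ) ≤ (N : ℝ) ^ 2 := by nlinarith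
        nlinarith
      nlinarith
    have h2 := Real.add_one_le_exp (2 * C' * β * (N : ℝ) ^ 2)
    nlinarith
  have e2 : ((2 * (N : ℝ) + 1) ^ 3 + 1) ≤ Real.exp (31 * β * (N : ℝ) ^ 2) := by
    have h0 : (2 * (N : ℝ) + 1) ^ 3 + 1 ≤ 28 * (N : ℝ) ^ 3 := by
      have h1 : 2 * (N : ℝ) + 1 ≤ 3 * N := by linarith
      have h2 : (2 * (N : ℝ) + 1) ^ 3 ≤ (3 * (N : ℝ)) ^ 3 := by gcongr
      have h3 : (1 : ℝ) ≤ (N : ℝ) ^ 3 := one_le_pow₀ hNr
      nlinarith
    have h1 : (N : ℝ) ≤ Real.exp (β * (N : ℝ) ^ 2) := by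
      have h2 := Real.add_one_le_exp (β * (N : ℝ) ^ 2)
      have h3 : (N : ℝ) ≤ β * (N : ℝ) ^ 2 := by
        have : (N : ℝ) ≤ (N : ℝ) ^ 2 := by nlinarith
        nlinarith
      linarith
    have h2 : (28 : ℝ) ≤ Real.exp (28 * (β * (N : ℝ) ^ 2)) := by
      have h3 := Real.add_one_le_exp (28 * (β * (N : ℝ) ^ 2))
      have h4 : 1 ≤ β * (N : ℝ) ^ 2 := by
        have : (1 : ℝ) ≤ (N : ℝ) ^ 2 := by nlinarith
        nlinarith
      linarith
    calc (2 * (N : ℝ) + 1) ^ 3 + 1 ≤ 28 * (N : ℝ) ^ 3 := h0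
      _ ≤ Real.exp (28 * (β * (N : ℝ) ^ 2)) * Real.exp (β * (N : ℝ) ^ 2) ^ 3 := by
          apply mul_le_mul h2 _ (by positivity) (Real.exp_pos _).le
          gcongr
      _ = Real.exp (31 * β * (N : ℝ) ^ 2) := by
          rw [← Real.exp_nat_mul, ← Real.exp_add]
          congr 1
          push_cast
          ring
  have hfin : Z ≤ (2 * C') * ((2 * (N : ℝ) + 1) ^ 3 + 1) *
      Real.exp (2 * β * (C' * (N : ℝ) ^ 2 + 54 * (N : ℝ) ^ 2)) * W := by
    have h1 : ((B.card * ((2 * N + 1) ^ 3 + 1) : ℕ) : ℝ) ≤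
        C' * ((2 * (N : ℝ) + 1) ^ 3 + 1) := by
      push_cast
      exact mul_le_mul_of_nonneg_right hBc (by positivity)
    have h2 : 0 ≤ Real.exp (2 * β * (C' * (N : ℝ) ^ 2 + 54 * (N : ℝ) ^ 2)) * W :=
      mul_nonneg (Real.exp_pos _).le hW0
    have h3 := mul_le_mul_of_nonneg_right h1 h2
    calc Z ≤ 2 * ZZ β N G := by linarith
      _ ≤ 2 * (((B.card * ((2 * N + 1) ^ 3 + 1) : ℕ) : ℝ) *
          (Real.exp (2 * β * (C' * (N : ℝ) ^ 2 + 54 * (N : ℝ) ^ 2)) * W)) := by linarith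
      _ ≤ 2 * (C' * ((2 * (N : ℝ) + 1) ^ 3 + 1) *
          (Real.exp (2 * β * (C' * (N : ℝ) ^ 2 + 54 * (N : ℝ) ^ 2)) * W)) := by linarith
      _ = _ := by ring
  refine hfin.trans ?_
  apply mul_le_mul_of_nonneg_right _ hW0
  calc (2 * C') * ((2 * (N : ℝ) + 1) ^ 3 + 1) *
      Real.exp (2 * β * (C' * (N : ℝ) ^ 2 + 54 * (N : ℝ) ^ 2)) ≤
      Real.exp (2 * C' * β * (N : ℝ) ^ 2) * Real.exp (31 * β * (N : ℝ) ^ 2) *
        Real.exp (2 * β * (C' * (N : ℝ) ^ 2 + 54 * (N : ℝ) ^ 2)) := by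
        apply mul_le_mul_of_nonneg_right _ (Real.exp_pos _).le
        exact mul_le_mul e1 e2 (by positivity) (Real.exp_pos _).le
    _ = Real.exp ((2 * (C' + 54) + 2 * C' + 31) * β * (N : ℝ) ^ 2) := by
        rw [← Real.exp_add, ← Real.exp_add]
        congr 1
        ring

end Pool.ISH
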