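import Pool.Agent.H40.ISH.Stmts

/-! Project ISH, module T1: the density theorem. -/

set_option autoImplicit false
set_option linter.unusedVariables false

namespace Pool.ISH

open MeasureTheory Filter Topology
open scoped Classical Pointwise

theorem h8_ZZ_nonneg (β : ℝ) (N : ℕ) (S : Finset (Finset Site)) : 0 ≤ ZZ β N S :=
  Finset.sum_nonneg fun A _ => (wt_pos β N A).le

theorem h8_ZZ_mono (β : ℝ) (N : ℕ) {S T : Finset (Finset Site)} (h : S ⊆ T) :
    ZZ β N S ≤ ZZ β N T :=
  Finset.sum_le_sum_of_subset_of_nonneg h fun A _ _ => (wt_pos β N A).le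

theorem h8_ZZ_pos (β : ℝ) (N : ℕ) {S : Finset (Finset Site)} (h : S.Nonempty) : 0 < ZZ β N S :=
  Finset.sum_pos (fun A _ => wt_pos β N A) h

theorem h8_ZZ_split (β : ℝ) (N : ℕ) (S : Finset (Finset Site)) (p : Finset Site → Prop) :
    ZZ β N (S.filter (fun A => p A)) + ZZ β N (S.filter (fun A => ¬ p A)) = ZZ β N S := by
  unfold ZZ
  exact Finset.sum_filter_add_sum_filter_not S p _

theorem t1 (hD : DENStmt) (hO : OUTStmt) (hB : BLWStmt) (hL : LITStmt) (hN : NEAStmt) :
    T1Stmt := by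
  obtain ⟨β₀, δ, hδ, hden⟩ := hD
  obtain ⟨δ', hδ', N₁, hout⟩ := hO δ hδ
  refine ⟨β₀, δ', hδ', fun β hβ b hb0 hb1 m hm => ?_⟩
  obtain ⟨N₀, hden⟩ := hden β hβ
  have key : ∀ N : ℕ, max 1 (max N₀ N₁) ≤ N →
      1 - 1 / (N : ℝ) ≤ prob β N (m N) (fun A => Dense δ' ((Nat.log 2 N + 1) ^ 6) N A) ∧
      prob β N (m N) (fun A => Dense δ' ((Nat.log 2 N + 1) ^ 6) N A) ≤ 1 := by
    intro N hN'
    have h1 : 1 ≤ N := le_trans (le_max_left _ _) hN'
    have h2 : N₀ ≤ N := le_trans (le_trans (le_max_left _ _) (le_max_right _ _)) hN'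
    have h3 : N₁ ≤ N := le_trans (le_trans (le_max_right _ _) (le_max_right _ _)) hN'
    obtain ⟨hm1, hm2⟩ := hN N b (m N) h1 hb0 hb1 (hm N)
    have hpos : 0 < ZZ β N (Cf N (m N)) := h8_ZZ_pos β N hm2
    have hd := hden N h2 (m N) hm1 hm2
    rw [hL]
    constructor
    · rw [le_div_iff₀ hpos]
      have hs := h8_ZZ_split β N (Cf N (m N))
        (fun A => Dense δ' ((Nat.log 2 N + 1) ^ 6) N A)
      have hsub : (Cf N (m N)).filter (fun A => ¬ Dense δ' ((Nat.log 2 N + 1) ^ 6) N A) ⊆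
          (Cf N (m N)).filter (fun A => Thin δ (Lg N ^ 5) N A) := by
        intro A hA
        rw [Finset.mem_filter] at hA ⊢
        refine ⟨hA.1, ?_⟩
        by_contra hT
        apply hA.2
        have hAV : A ⊆ Vb N := by
          have := hA.1
          rw [Cf, Finset.mem_filter, Finset.mem_powerset] at this
          exact this.1
        have ho := hout N h3 A hAV hT
        obtain ⟨hb1', hb2'⟩ := hB N A h1
        intro b' hb' x hx R hR
        rw [hb1']
        exact ho b' ((hb2' b').1 hb').1 x hx R hR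
      have hmono := h8_ZZ_mono β N hsub
      have : (1 - 1 / (N : ℝ)) * ZZ β N (Cf N (m N)) =
          ZZ β N (Cf N (m N)) - 1 / (N : ℝ) * ZZ β N (Cf N (m N)) := by ring
      rw [this]
      linarith
    · rw [div_le_one hpos]
      exact h8_ZZ_mono β N (Finset.filter_subset _ _)
  refine tendsto_of_tendsto_of_tendsto_of_le_of_le' (g := fun N : ℕ => 1 - 1 / (N : ℝ))
    (h := fun _ => (1 : ℝ)) ?_ tendsto_const_nhds ?_ ?_
  · have h := tendsto_one_div_atTop_nhds_zero_nat (𝕜 := ℝ)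
    simpa using tendsto_const_nhds.sub h
  · filter_upwards [eventually_ge_atTop (max 1 (max N₀ N₁))] with N hN'
    exact (key N hN').1
  · filter_upwards [eventually_ge_atTop (max 1 (max N₀ N₁))] with N hN'
    exact (key N hN').2

end Pool.ISH
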